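import Pool.Agent.H18.QGR.Stmts

/-!
Row GNB of board qgr.
-/

set_option autoImplicit false

noncomputable section

namespace Pool.QGR

namespace GNBAux

variable {m : ℕ}

theorem l1_eq (f : E m) (s : Finset (List (Fin m))) (h : f.support ⊆ s) :
    l1 f = ∑ w ∈ s, ‖f w‖ := by
  unfold l1
  rw [Finsupp.sum_of_support_subset f h (fun _ r => ‖r‖) (fun _ _ => norm_zero)]

theorem l1_nonneg (f : E m) : 0 ≤ l1 f := by
  unfold l1
  exact Finset.sum_nonneg fun _ _ => norm_nonneg _

theorem l1_zero : l1 (0 : E m) = 0 := by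
  simp [l1]

theorem l1_add (f g : E m) : l1 (f + g) ≤ l1 f + l1 g := by
  classical
  rw [l1_eq (f + g) (f.support ∪ g.support) Finsupp.support_add,
    l1_eq f (f.support ∪ g.support) Finset.subset_union_left,
    l1_eq g (f.support ∪ g.support) Finset.subset_union_right, ← Finset.sum_add_distrib]
  exact Finset.sum_le_sum fun w _ => norm_add_le _ _

theorem l1_smul (r : ℂ) (f : E m) : l1 (r • f) = ‖r‖ * l1 f := by
  rw [l1_eq (r • f) f.support Finsupp.support_smul, l1_eq f f.support (le_refl _),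
    Finset.mul_sum]
  exact Finset.sum_congr rfl fun w _ => by
    rw [Finsupp.smul_apply, smul_eq_mul, norm_mul]

theorem l1_sum {ι : Type} (s : Finset ι) (F : ι → E m) :
    l1 (∑ i ∈ s, F i) ≤ ∑ i ∈ s, l1 (F i) := by
  classical
  induction s using Finset.induction_on with
  | empty => simp [l1_zero]
  | insert a s ha ih =>
    rw [Finset.sum_insert ha, Finset.sum_insert ha]
    exact (l1_add _ _).trans (by linarith)

theorem card_wn (m n : ℕ) : (wn m n).card ≤ m ^ n := by
  unfold wn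
  refine Finset.card_image_le.trans ?_
  rw [Finset.card_univ, Fintype.card_fun, Fintype.card_fin, Fintype.card_fin]

end GNBAux

open GNBAux

theorem gnb_thm (hPHZ : PHZStmt) (hPHB : PHBStmt) (hWKI : WKIStmt) (hWKN : WKNStmt) :
    GNBStmt := by
  classical
  intro m q Q hq A _ _ τ hτ x hx C j hj hu
  have hC : 1 ≤ C := hj.one_le
  have hQ0 : 0 ≤ Q := hq.nonneg
  have hL : 1 ≤ 1 + 1 / (1 - Q) := by
    have : 0 ≤ 1 / (1 - Q) := by
      apply div_nonneg zero_le_one
      linarith [hq.lt]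
    linarith
  set L : ℝ := 1 + 1 / (1 - Q) with hLdef
  have hm1 : (1 : ℝ) ≤ (m : ℝ) + 1 := by
    have : (0 : ℝ) ≤ (m : ℝ) := Nat.cast_nonneg m
    linarith
  refine ⟨4 * ((m : ℝ) + 1) * C * L, ?_, ?_⟩
  · have h1 : (1 : ℝ) ≤ 4 * ((m : ℝ) + 1) := by linarith
    have h2 : (1 : ℝ) ≤ 4 * ((m : ℝ) + 1) * C := one_le_mul_of_one_le_of_one_le h1 hC
    exact one_le_mul_of_one_le_of_one_le h2 hL
  · intro N
    set G := gg (pN q j N) with hG
    set g := Ph q G with hg
    have hz : ∀ v : List (Fin m), v.length < N → g v = 0 :=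
      fun v hv => hPHZ m q Q hq A τ hτ x hx C j hj hu N v hv
    have hb : ∀ v : List (Fin m), (N + 1 < v.length → g v = 0) ∧
        (N ≤ v.length → ‖g v‖ ≤ 2 * (C ^ N * Q ^ tr ((N - 1) / 2))) :=
      fun v => hPHB m q Q hq C hC j hj.bdd N v
    have hGs : G = ∑ v ∈ g.support, g v • Wk q v := by
      have h := hWKI m q G
      rw [← h]
      change Finsupp.linearCombination ℂ (Wk q) g = _
      rw [Finsupp.linearCombination_apply]
      rfl
    have hsub : g.support ⊆ wn m N ∪ wn m (N + 1) := by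
      intro v hv
      rw [Finsupp.mem_support_iff] at hv
      rw [Finset.mem_union, mem_wn, mem_wn]
      have h1 : ¬ v.length < N := fun h => hv (hz v h)
      have h2 : ¬ N + 1 < v.length := fun h => hv ((hb v).1 h)
      omega
    have hcard : ((g.support.card : ℕ) : ℝ) ≤ (m : ℝ) ^ N + (m : ℝ) ^ (N + 1) := by
      have h1 : g.support.card ≤ m ^ N + m ^ (N + 1) :=
        (Finset.card_le_card hsub).trans ((Finset.card_union_le _ _).trans
          (Nat.add_le_add (card_wn m N) (card_wn m (N + 1))))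
      exact_mod_cast h1
    have hL0 : 0 ≤ L := zero_le_one.trans hL
    have hC0 : 0 ≤ C := zero_le_one.trans hC
    set T : ℝ := Q ^ tr ((N - 1) / 2) with hT
    have hT0 : 0 ≤ T := pow_nonneg hQ0 _
    have hterm : ∀ v ∈ g.support, l1 (g v • Wk q v) ≤ 2 * (C ^ N * T) * L ^ (N + 1) := by
      intro v hv
      have hv' := hsub hv
      rw [Finset.mem_union, mem_wn, mem_wn] at hv'
      rw [l1_smul]
      have h1 : ‖g v‖ ≤ 2 * (C ^ N * T) := (hb v).2 (by omega)
      have h2 : l1 (Wk q v) ≤ L ^ (N + 1) :=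
        (hWKN m q Q hq v).trans (pow_le_pow_right₀ hL (by omega))
      exact mul_le_mul h1 h2 (l1_nonneg _) (by positivity)
    have hsum : l1 G ≤ ((g.support.card : ℕ) : ℝ) * (2 * (C ^ N * T) * L ^ (N + 1)) := by
      rw [hGs]
      refine (l1_sum _ _).trans ?_
      refine (Finset.sum_le_card_nsmul _ _ _ hterm).trans ?_
      rw [nsmul_eq_mul]
    refine hsum.trans ?_
    have hB0 : 0 ≤ 2 * (C ^ N * T) * L ^ (N + 1) := by positivity
    refine (mul_le_mul_of_nonneg_right hcard hB0).trans ?_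
    have e1 : (m : ℝ) ^ N + (m : ℝ) ^ (N + 1) ≤ ((m : ℝ) + 1) ^ (N + 1) := by
      have : (m : ℝ) ^ N + (m : ℝ) ^ (N + 1) = (m : ℝ) ^ N * ((m : ℝ) + 1) := by ring
      rw [this, pow_succ]
      exact mul_le_mul_of_nonneg_right
        (pow_le_pow_left₀ (Nat.cast_nonneg m) (by linarith) N) (by linarith)
    have e2 : (2 : ℝ) ≤ 4 ^ (N + 1) := by
      have : (1 : ℝ) ≤ 4 ^ N := one_le_pow₀ (by norm_num)
      rw [pow_succ]; linarith
    have e3 : C ^ N ≤ C ^ (N + 1) := pow_le_pow_right₀ hC (Nat.le_succ N)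
    have e4 : ((m : ℝ) ^ N + (m : ℝ) ^ (N + 1)) * (2 * (C ^ N * T) * L ^ (N + 1)) =
        (2 * ((m : ℝ) ^ N + (m : ℝ) ^ (N + 1)) * C ^ N) * (L ^ (N + 1) * T) := by ring
    have e5 : (4 * ((m : ℝ) + 1) * C * L) ^ (N + 1) * T =
        (4 ^ (N + 1) * ((m : ℝ) + 1) ^ (N + 1) * C ^ (N + 1)) * (L ^ (N + 1) * T) := by
      rw [mul_pow, mul_pow, mul_pow]; ring
    rw [e4, e5]
    refine mul_le_mul_of_nonneg_right ?_ (by positivity)
    exact mul_le_mul (mul_le_mul e2 e1 (by positivity) (by positivity)) e3 (by positivity)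
      (by positivity)

end Pool.QGR
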